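import Mathlib

set_option autoImplicit false

/-!
Definitions for the Hankel determinants of the weighted binary digit sums `S(n,t)`.
-/

namespace Pool.Agent.Lib.MP_adc81a_nt

open Polynomial

/-- The weighted binary digit sum `S(n,t)`, as an integer polynomial in `t`:
`Nat.ofDigits X` of the list of binary digits of `n` (least significant first), that is
`∑ ε_j t^j` for `n = ∑ ε_j 2^j`. -/
noncomputable def digitPoly (n : ℕ) : ℤ[X] := Nat.ofDigits (X : ℤ[X]) (Nat.digits 2 n)

/-- The `n × n` Hankel matrix `[S(i+j,t)]` with `0 ≤ i, j < n`. -/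
noncomputable def hankelMatrix (n : ℕ) : Matrix (Fin n) (Fin n) ℤ[X] :=
  Matrix.of fun i j => digitPoly ((i : ℕ) + (j : ℕ))

/-- The Hankel determinant `ℋ(n,t) = det [S(i+j,t)]`. -/
noncomputable def hankelDet (n : ℕ) : ℤ[X] := (hankelMatrix n).det

end Pool.Agent.Lib.MP_adc81a_nt
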