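import Mathlib
import Pool.Agent.Lib.MP_adc81a_nt.Defs

set_option autoImplicit false

/-!
Certificate data and computations for the Hankel determinant of order 55 of the
weighted binary digit sums.
-/

namespace Pool.Agent.Lib.MP_adc81a_nt

open Polynomial

theorem digitPoly_step (n : ℕ) :
    digitPoly n = ((n % 2 : ℕ) : ℤ[X]) + X * digitPoly (n / 2) := by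
  rcases Nat.eq_zero_or_pos n with h | h
  · subst h; simp [digitPoly, Nat.ofDigits]
  · unfold digitPoly
    rw [Nat.digits_def' (by norm_num) h, Nat.ofDigits]

/-- fuelled computation of the value and derivative of `S(n,t)` at `t = -1`. -/
def sp : ℕ → ℕ → ℤ × ℤ
  | 0, _ => (0, 0)
  | k + 1, n => (((n % 2 : ℕ) : ℤ) - (sp k (n / 2)).1, (sp k (n / 2)).1 - (sp k (n / 2)).2)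

theorem sp_spec (k : ℕ) : ∀ n : ℕ, n < 2 ^ k →
    (digitPoly n).eval (-1) = (sp k n).1 ∧ (derivative (digitPoly n)).eval (-1) = (sp k n).2 := by
  induction k with
  | zero =>
    intro n hn
    have : n = 0 := by simpa using hn
    subst this
    simp [digitPoly, sp, Nat.ofDigits]
  | succ k ih =>
    intro n hn
    have h2 : n / 2 < 2 ^ k := by
      rw [Nat.div_lt_iff_lt_mul (by norm_num)]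
      calc n < 2 ^ (k + 1) := hn
        _ = 2 ^ k * 2 := by ring
    obtain ⟨h1, h3⟩ := ih (n / 2) h2
    rw [digitPoly_step]
    constructor
    · simp only [eval_add, eval_mul, eval_natCast, eval_X, h1, sp]
      ring
    · simp only [derivative_add, derivative_natCast, derivative_mul, derivative_X, eval_add,
        eval_mul, eval_X, eval_zero, eval_one, h1, h3, sp]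
      ring

/-- first part of the kernel vector -/
def va : List ℤ := [-3, 2, 1, 0, -1, 1, 1, 0, 0, 0, 0, 0, 0, 0, 0, 0, -3, 2, 1, 0,
   -1, 1, 1, 0, 0, 0, 0, 0, 0, 0, 0, 0, 8, -5, -2, 0, 2, -2, -2, 0,
   2, -1, 0, 0, 0, 0, 0, 0, -3, 2, 1, 0, -1, 1, 1]

/-- second part of the kernel vector -/
def vb : List ℤ := [-19, 14, 3, 0, -4, 5, 3, 0, -2, 1, 0, 0, 0, 0, 0, 0, -8, 7, 0, 0,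
   -1, 2, 0, 0, 0, 0, 0, 0, 0, 0, 0, 0, 32, -25, -3, 0, 5, -7, -3, 0,
   7, -5, 0, 0, 0, 0, 0, 0, -8, 7, 0, 0, -1, 2, 0]

/-- `dotI L s g = ∑ k < L.length, L[k] * g (s+k)`. -/
def dotI : List ℤ → ℕ → (ℕ → ℤ) → ℤ
  | [], _, _ => 0
  | a :: t, s, g => a * g s + dotI t (s + 1) g

theorem dotI_eq (L : List ℤ) : ∀ (s : ℕ) (g : ℕ → ℤ),
    dotI L s g = ∑ k ∈ Finset.range L.length, L.getD k 0 * g (s + k) := by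
  induction L with
  | nil => intro s g; simp [dotI]
  | cons a t ih =>
    intro s g
    rw [dotI, ih, List.length_cons, Finset.sum_range_succ']
    simp only [List.getD_cons_succ, List.getD_cons_zero, Nat.add_zero]
    rw [add_comm]
    congr 1
    apply Finset.sum_congr rfl
    intro k _
    congr 2
    ring

/-- first check -/
def check1 : Bool := (List.range 55).all fun i => decide (dotI va i (fun m => (sp 7 m).1) = 0)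

/-- second check -/
def check2 : Bool := (List.range 55).all fun i =>
  decide (dotI va i (fun m => (sp 7 m).2) + dotI vb i (fun m => (sp 7 m).1) = 0)

set_option maxRecDepth 100000 in
theorem check1_true : check1 = true := by decide +kernel

set_option maxRecDepth 100000 in
theorem check2_true : check2 = true := by decide +kernel

/-- digit sum with fuel -/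
def s2 : ℕ → ℕ → ℕ
  | 0, _ => 0
  | k + 1, n => n % 2 + s2 k (n / 2)

theorem s2_spec (k : ℕ) : ∀ n : ℕ, n < 2 ^ k → (digitPoly n).eval 1 = (s2 k n : ℤ) := by
  induction k with
  | zero =>
    intro n hn
    have : n = 0 := by simpa using hn
    subst this
    simp [digitPoly, s2, Nat.ofDigits]
  | succ k ih =>
    intro n hn
    have h2 : n / 2 < 2 ^ k := by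
      rw [Nat.div_lt_iff_lt_mul (by norm_num)]
      calc n < 2 ^ (k + 1) := hn
        _ = 2 ^ k * 2 := by ring
    have h1 := ih (n / 2) h2
    rw [digitPoly_step]
    simp only [eval_add, eval_mul, eval_natCast, eval_X, h1, s2]
    push_cast
    ring

/-- `dotN L s g = ∑ k < L.length, L[k] * g (s+k)`. -/
def dotN : List ℕ → ℕ → (ℕ → ℕ) → ℕ
  | [], _, _ => 0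
  | a :: t, s, g => a * g s + dotN t (s + 1) g

theorem dotN_eq (L : List ℕ) : ∀ (s : ℕ) (g : ℕ → ℕ),
    dotN L s g = ∑ k ∈ Finset.range L.length, L.getD k 0 * g (s + k) := by
  induction L with
  | nil => intro s g; simp [dotN]
  | cons a t ih =>
    intro s g
    rw [dotN, ih, List.length_cons, Finset.sum_range_succ']
    simp only [List.getD_cons_succ, List.getD_cons_zero, Nat.add_zero]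
    rw [add_comm]
    congr 1
    apply Finset.sum_congr rfl
    intro k _
    congr 2
    ring

/-- inverse of the matrix modulo 5 (at `t = 1`) -/
def ninv : List (List ℕ) :=
 [[1, 4, 0, 4, 2, 2, 0, 3, 2, 1, 0, 0, 0, 0, 0, 1, 2, 4, 0, 2, 1, 1, 0, 0, 0, 0, 0, 0, 0, 0, 0, 4, 0, 4, 0, 1, 3, 3, 0, 1, 4, 2, 0, 0, 0, 0, 0, 1, 2, 4, 0, 2, 1, 1, 0],
  [4, 4, 1, 1, 0, 4, 0, 2, 2, 0, 0, 0, 0, 0, 1, 4, 1, 2, 3, 3, 0, 2, 1, 0, 0, 0, 0, 0, 0, 0, 4, 1, 2, 1, 4, 4, 0, 1, 4, 4, 4, 0, 0, 0, 0, 0, 1, 4, 1, 2, 3, 3, 0, 2, 1],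
  [0, 1, 4, 0, 3, 3, 0, 0, 1, 1, 0, 0, 0, 1, 4, 0, 2, 0, 2, 0, 4, 0, 4, 0, 0, 0, 0, 0, 0, 4, 1, 0, 3, 2, 1, 0, 2, 1, 1, 0, 2, 2, 0, 0, 0, 1, 4, 0, 2, 0, 2, 0, 4, 0, 4],
  [4, 1, 0, 0, 4, 1, 0, 0, 2, 3, 0, 0, 1, 4, 0, 0, 1, 4, 0, 0, 3, 2, 0, 0, 0, 0, 0, 0, 4, 1, 0, 0, 2, 3, 0, 0, 0, 0, 0, 0, 4, 1, 0, 0, 1, 4, 0, 0, 1, 4, 0, 0, 3, 2, 0],
  [2, 0, 3, 4, 0, 3, 3, 0, 4, 1, 0, 1, 4, 0, 0, 0, 4, 2, 4, 3, 4, 4, 4, 0, 0, 0, 0, 4, 1, 0, 0, 0, 0, 3, 2, 0, 1, 2, 2, 0, 3, 2, 0, 1, 4, 0, 0, 0, 4, 2, 4, 3, 4, 4, 4],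
  [2, 4, 3, 1, 3, 0, 4, 0, 2, 2, 1, 4, 0, 0, 0, 0, 0, 1, 0, 2, 4, 0, 2, 0, 0, 0, 4, 1, 0, 0, 0, 0, 4, 2, 1, 0, 2, 0, 1, 0, 4, 4, 1, 4, 0, 0, 0, 0, 0, 1, 0, 2, 4, 0, 2],
  [0, 0, 0, 0, 3, 4, 4, 0, 1, 2, 4, 0, 0, 0, 0, 0, 2, 3, 4, 0, 4, 2, 2, 0, 0, 4, 1, 0, 0, 0, 0, 0, 3, 2, 1, 0, 2, 1, 1, 0, 2, 3, 4, 0, 0, 0, 0, 0, 2, 3, 4, 0, 4, 2, 2],
  [3, 2, 0, 0, 0, 0, 0, 0, 3, 2, 0, 0, 0, 0, 0, 0, 4, 1, 0, 0, 0, 0, 0, 0, 4, 1, 0, 0, 0, 0, 0, 0, 2, 3, 0, 0, 0, 0, 0, 0, 0, 0, 0, 0, 0, 0, 0, 0, 4, 1, 0, 0, 0, 0, 0],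
  [2, 2, 1, 2, 4, 2, 1, 3, 0, 0, 0, 0, 0, 0, 0, 0, 2, 1, 3, 1, 2, 1, 3, 4, 1, 0, 0, 0, 0, 0, 0, 0, 2, 3, 4, 3, 1, 3, 4, 0, 1, 0, 0, 0, 0, 0, 0, 0, 2, 1, 3, 1, 2, 1, 3],
  [1, 0, 1, 3, 1, 2, 2, 2, 0, 4, 0, 0, 0, 0, 0, 0, 3, 3, 3, 4, 3, 1, 1, 1, 0, 0, 0, 0, 0, 0, 0, 0, 4, 2, 4, 2, 4, 3, 1, 0, 0, 3, 0, 0, 0, 0, 0, 0, 3, 3, 3, 4, 3, 1, 2],
  [0, 0, 0, 0, 0, 1, 4, 0, 0, 0, 0, 0, 0, 0, 0, 0, 0, 0, 0, 0, 0, 3, 2, 0, 0, 0, 0, 0, 0, 0, 0, 0, 0, 0, 0, 0, 0, 2, 3, 0, 0, 0, 0, 0, 0, 0, 0, 0, 0, 0, 0, 0, 0, 4, 1],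
  [0, 0, 0, 0, 1, 4, 0, 0, 0, 0, 0, 0, 0, 0, 0, 0, 0, 0, 0, 0, 3, 2, 0, 0, 0, 0, 0, 0, 0, 0, 0, 0, 0, 0, 0, 0, 2, 3, 0, 0, 0, 0, 0, 0, 0, 0, 0, 0, 0, 0, 0, 0, 4, 1, 0],
  [0, 0, 0, 1, 4, 0, 0, 0, 0, 0, 0, 0, 0, 0, 0, 0, 0, 0, 0, 3, 2, 0, 0, 0, 0, 0, 0, 0, 0, 0, 0, 0, 0, 0, 0, 2, 3, 0, 0, 0, 0, 0, 0, 0, 0, 0, 0, 0, 0, 0, 0, 4, 1, 0, 0],
  [0, 0, 1, 4, 0, 0, 0, 0, 0, 0, 0, 0, 0, 0, 0, 0, 0, 0, 3, 2, 0, 0, 0, 0, 0, 0, 0, 0, 0, 0, 0, 0, 0, 0, 2, 3, 0, 0, 0, 0, 0, 0, 0, 0, 0, 0, 0, 0, 0, 0, 4, 1, 0, 0, 0],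
  [0, 1, 4, 0, 0, 0, 0, 0, 0, 0, 0, 0, 0, 0, 0, 0, 0, 3, 2, 0, 0, 0, 0, 0, 0, 0, 0, 0, 0, 0, 0, 0, 0, 2, 3, 0, 0, 0, 0, 0, 0, 0, 0, 0, 0, 0, 0, 0, 0, 4, 1, 0, 0, 0, 0],
  [1, 4, 0, 0, 0, 0, 0, 0, 0, 0, 0, 0, 0, 0, 0, 0, 3, 2, 0, 0, 0, 0, 0, 0, 0, 0, 0, 0, 0, 0, 0, 0, 2, 3, 0, 0, 0, 0, 0, 0, 0, 0, 0, 0, 0, 0, 0, 0, 4, 1, 0, 0, 0, 0, 0],
  [2, 1, 2, 1, 4, 0, 2, 4, 2, 3, 0, 0, 0, 0, 0, 3, 0, 4, 1, 3, 2, 0, 1, 0, 0, 0, 0, 0, 0, 0, 0, 0, 1, 3, 3, 4, 1, 0, 3, 3, 4, 1, 0, 0, 0, 0, 0, 4, 4, 4, 1, 3, 2, 0, 1],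
  [4, 2, 0, 4, 2, 1, 3, 1, 1, 3, 0, 0, 0, 0, 3, 2, 4, 2, 0, 2, 1, 3, 2, 0, 0, 0, 0, 0, 0, 0, 0, 0, 4, 2, 0, 1, 3, 4, 4, 2, 2, 1, 0, 0, 0, 0, 4, 1, 4, 2, 0, 2, 1, 3, 2],
  [0, 3, 2, 0, 4, 0, 4, 0, 3, 3, 0, 0, 0, 3, 2, 0, 1, 0, 1, 0, 2, 3, 4, 0, 0, 0, 0, 0, 0, 0, 0, 0, 4, 1, 3, 0, 1, 2, 4, 0, 1, 1, 0, 0, 0, 4, 1, 0, 1, 0, 1, 0, 2, 3, 4],
  [2, 3, 0, 0, 3, 2, 0, 0, 1, 4, 0, 0, 3, 2, 0, 0, 3, 2, 0, 0, 2, 3, 0, 0, 0, 0, 0, 0, 0, 0, 0, 0, 1, 4, 0, 0, 4, 1, 0, 0, 2, 3, 0, 0, 4, 1, 0, 0, 3, 2, 0, 0, 2, 3, 0],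
  [1, 0, 4, 3, 4, 4, 4, 0, 2, 3, 0, 3, 2, 0, 0, 0, 2, 1, 2, 2, 4, 2, 2, 0, 0, 0, 0, 0, 0, 0, 0, 0, 0, 4, 1, 4, 4, 1, 1, 0, 4, 1, 0, 4, 1, 0, 0, 0, 2, 1, 2, 2, 4, 2, 2],
  [1, 2, 0, 2, 4, 0, 2, 0, 1, 1, 3, 2, 0, 0, 0, 0, 0, 3, 3, 3, 2, 0, 1, 0, 0, 0, 0, 0, 0, 0, 0, 0, 2, 1, 2, 1, 1, 0, 3, 0, 2, 2, 4, 1, 0, 0, 0, 0, 0, 3, 3, 3, 2, 0, 1],
  [0, 1, 4, 0, 4, 2, 2, 0, 3, 1, 2, 0, 0, 0, 0, 0, 1, 2, 4, 0, 2, 1, 1, 0, 0, 0, 0, 0, 0, 0, 0, 0, 4, 0, 4, 0, 1, 3, 3, 0, 1, 0, 1, 0, 0, 0, 0, 0, 1, 2, 4, 0, 2, 1, 1],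
  [0, 0, 0, 0, 0, 0, 0, 0, 4, 1, 0, 0, 0, 0, 0, 0, 0, 0, 0, 0, 0, 0, 0, 0, 0, 0, 0, 0, 0, 0, 0, 0, 0, 0, 0, 0, 0, 0, 0, 0, 1, 4, 0, 0, 0, 0, 0, 0, 0, 0, 0, 0, 0, 0, 0],
  [0, 0, 0, 0, 0, 0, 0, 4, 1, 0, 0, 0, 0, 0, 0, 0, 0, 0, 0, 0, 0, 0, 0, 0, 0, 0, 0, 0, 0, 0, 0, 0, 0, 0, 0, 0, 0, 0, 0, 1, 4, 0, 0, 0, 0, 0, 0, 0, 0, 0, 0, 0, 0, 0, 0],
  [0, 0, 0, 0, 0, 0, 4, 1, 0, 0, 0, 0, 0, 0, 0, 0, 0, 0, 0, 0, 0, 0, 0, 0, 0, 0, 0, 0, 0, 0, 0, 0, 0, 0, 0, 0, 0, 0, 1, 4, 0, 0, 0, 0, 0, 0, 0, 0, 0, 0, 0, 0, 0, 0, 0],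
  [0, 0, 0, 0, 0, 4, 1, 0, 0, 0, 0, 0, 0, 0, 0, 0, 0, 0, 0, 0, 0, 0, 0, 0, 0, 0, 0, 0, 0, 0, 0, 0, 0, 0, 0, 0, 0, 1, 4, 0, 0, 0, 0, 0, 0, 0, 0, 0, 0, 0, 0, 0, 0, 0, 0],
  [0, 0, 0, 0, 4, 1, 0, 0, 0, 0, 0, 0, 0, 0, 0, 0, 0, 0, 0, 0, 0, 0, 0, 0, 0, 0, 0, 0, 0, 0, 0, 0, 0, 0, 0, 0, 1, 4, 0, 0, 0, 0, 0, 0, 0, 0, 0, 0, 0, 0, 0, 0, 0, 0, 0],
  [0, 0, 0, 4, 1, 0, 0, 0, 0, 0, 0, 0, 0, 0, 0, 0, 0, 0, 0, 0, 0, 0, 0, 0, 0, 0, 0, 0, 0, 0, 0, 0, 0, 0, 0, 1, 4, 0, 0, 0, 0, 0, 0, 0, 0, 0, 0, 0, 0, 0, 0, 0, 0, 0, 0],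
  [0, 0, 4, 1, 0, 0, 0, 0, 0, 0, 0, 0, 0, 0, 0, 0, 0, 0, 0, 0, 0, 0, 0, 0, 0, 0, 0, 0, 0, 0, 0, 0, 0, 0, 1, 4, 0, 0, 0, 0, 0, 0, 0, 0, 0, 0, 0, 0, 0, 0, 0, 0, 0, 0, 0],
  [0, 4, 1, 0, 0, 0, 0, 0, 0, 0, 0, 0, 0, 0, 0, 0, 0, 0, 0, 0, 0, 0, 0, 0, 0, 0, 0, 0, 0, 0, 0, 0, 0, 1, 4, 0, 0, 0, 0, 0, 0, 0, 0, 0, 0, 0, 0, 0, 0, 0, 0, 0, 0, 0, 0],
  [4, 1, 0, 0, 0, 0, 0, 0, 0, 0, 0, 0, 0, 0, 0, 0, 0, 0, 0, 0, 0, 0, 0, 0, 0, 0, 0, 0, 0, 0, 0, 0, 1, 4, 0, 0, 0, 0, 0, 0, 0, 0, 0, 0, 0, 0, 0, 0, 0, 0, 0, 0, 0, 0, 0],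
  [0, 2, 3, 2, 0, 4, 3, 2, 2, 4, 0, 0, 0, 0, 0, 2, 1, 4, 4, 1, 0, 2, 4, 0, 0, 0, 0, 0, 0, 0, 0, 1, 1, 0, 2, 3, 0, 1, 2, 4, 4, 3, 0, 0, 0, 0, 0, 2, 1, 4, 4, 1, 0, 2, 4],
  [4, 1, 2, 3, 3, 2, 2, 3, 3, 2, 0, 0, 0, 0, 2, 3, 3, 2, 1, 4, 4, 1, 0, 0, 0, 0, 0, 0, 0, 0, 1, 4, 0, 0, 3, 2, 2, 3, 4, 1, 1, 4, 0, 0, 0, 0, 2, 3, 3, 2, 1, 4, 4, 1, 0],
  [0, 4, 1, 0, 2, 1, 1, 0, 4, 4, 0, 0, 0, 2, 3, 0, 3, 0, 3, 0, 1, 2, 4, 0, 0, 0, 0, 0, 0, 1, 4, 0, 2, 3, 4, 0, 3, 0, 3, 0, 3, 3, 0, 0, 0, 2, 3, 0, 3, 0, 3, 0, 1, 2, 4],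
  [1, 4, 0, 0, 0, 0, 0, 0, 3, 2, 0, 0, 2, 3, 0, 0, 4, 1, 0, 0, 4, 1, 0, 0, 0, 0, 0, 0, 1, 4, 0, 0, 3, 2, 0, 0, 1, 4, 0, 0, 1, 4, 0, 0, 2, 3, 0, 0, 4, 1, 0, 0, 4, 1, 0],
  [3, 0, 2, 0, 1, 2, 2, 0, 1, 4, 0, 2, 3, 0, 0, 0, 1, 3, 1, 4, 4, 1, 1, 0, 0, 0, 0, 1, 4, 0, 0, 0, 0, 2, 3, 1, 3, 3, 3, 0, 2, 3, 0, 2, 3, 0, 0, 0, 1, 3, 1, 4, 4, 1, 1],
  [3, 1, 1, 0, 2, 0, 1, 0, 3, 3, 2, 3, 0, 0, 0, 0, 0, 4, 2, 1, 1, 0, 3, 0, 0, 0, 1, 4, 0, 0, 0, 0, 1, 3, 0, 4, 3, 0, 4, 0, 1, 1, 2, 3, 0, 0, 0, 0, 0, 4, 2, 1, 1, 0, 3],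
  [0, 4, 1, 0, 2, 1, 1, 0, 4, 1, 3, 0, 0, 0, 0, 0, 3, 4, 4, 0, 1, 3, 3, 0, 0, 1, 4, 0, 0, 0, 0, 0, 2, 4, 3, 0, 3, 4, 4, 0, 3, 0, 3, 0, 0, 0, 0, 0, 3, 4, 4, 0, 1, 3, 3],
  [1, 4, 0, 0, 0, 0, 0, 0, 0, 0, 0, 0, 0, 0, 0, 0, 3, 2, 0, 0, 0, 0, 0, 0, 1, 4, 0, 0, 0, 0, 0, 0, 4, 1, 0, 0, 0, 0, 0, 0, 3, 2, 0, 0, 0, 0, 0, 0, 3, 2, 0, 0, 0, 0, 0],
  [4, 4, 2, 4, 3, 4, 2, 0, 1, 0, 0, 0, 0, 0, 0, 0, 4, 2, 1, 2, 4, 2, 1, 1, 4, 0, 0, 0, 0, 0, 0, 0, 4, 1, 3, 1, 2, 1, 3, 3, 4, 0, 0, 0, 0, 0, 0, 0, 4, 2, 1, 2, 4, 2, 1],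
  [2, 0, 2, 1, 2, 4, 3, 0, 0, 3, 0, 0, 0, 0, 0, 0, 1, 1, 1, 3, 1, 2, 0, 4, 0, 0, 0, 0, 0, 0, 0, 0, 3, 4, 3, 4, 3, 1, 0, 2, 0, 1, 0, 0, 0, 0, 0, 0, 1, 1, 1, 3, 1, 2, 4],
  [0, 0, 0, 0, 0, 1, 4, 0, 0, 0, 0, 0, 0, 0, 0, 0, 0, 0, 0, 0, 0, 4, 1, 0, 0, 0, 0, 0, 0, 0, 0, 0, 0, 0, 0, 0, 0, 2, 3, 0, 0, 0, 0, 0, 0, 0, 0, 0, 0, 0, 0, 0, 0, 3, 2],
  [0, 0, 0, 0, 1, 4, 0, 0, 0, 0, 0, 0, 0, 0, 0, 0, 0, 0, 0, 0, 4, 1, 0, 0, 0, 0, 0, 0, 0, 0, 0, 0, 0, 0, 0, 0, 2, 3, 0, 0, 0, 0, 0, 0, 0, 0, 0, 0, 0, 0, 0, 0, 3, 2, 0],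
  [0, 0, 0, 1, 4, 0, 0, 0, 0, 0, 0, 0, 0, 0, 0, 0, 0, 0, 0, 4, 1, 0, 0, 0, 0, 0, 0, 0, 0, 0, 0, 0, 0, 0, 0, 2, 3, 0, 0, 0, 0, 0, 0, 0, 0, 0, 0, 0, 0, 0, 0, 3, 2, 0, 0],
  [0, 0, 1, 4, 0, 0, 0, 0, 0, 0, 0, 0, 0, 0, 0, 0, 0, 0, 4, 1, 0, 0, 0, 0, 0, 0, 0, 0, 0, 0, 0, 0, 0, 0, 2, 3, 0, 0, 0, 0, 0, 0, 0, 0, 0, 0, 0, 0, 0, 0, 3, 2, 0, 0, 0],
  [0, 1, 4, 0, 0, 0, 0, 0, 0, 0, 0, 0, 0, 0, 0, 0, 0, 4, 1, 0, 0, 0, 0, 0, 0, 0, 0, 0, 0, 0, 0, 0, 0, 2, 3, 0, 0, 0, 0, 0, 0, 0, 0, 0, 0, 0, 0, 0, 0, 3, 2, 0, 0, 0, 0],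
  [1, 4, 0, 0, 0, 0, 0, 0, 0, 0, 0, 0, 0, 0, 0, 0, 4, 1, 0, 0, 0, 0, 0, 0, 0, 0, 0, 0, 0, 0, 0, 0, 2, 3, 0, 0, 0, 0, 0, 0, 0, 0, 0, 0, 0, 0, 0, 0, 3, 2, 0, 0, 0, 0, 0],
  [2, 1, 2, 1, 4, 0, 2, 4, 2, 3, 0, 0, 0, 0, 0, 4, 4, 4, 1, 3, 2, 0, 1, 0, 0, 0, 0, 0, 0, 0, 0, 0, 1, 3, 3, 4, 1, 0, 3, 3, 4, 1, 0, 0, 0, 0, 0, 3, 0, 4, 1, 3, 2, 0, 1],
  [4, 2, 0, 4, 2, 1, 3, 1, 1, 3, 0, 0, 0, 0, 4, 1, 4, 2, 0, 2, 1, 3, 2, 0, 0, 0, 0, 0, 0, 0, 0, 0, 4, 2, 0, 1, 3, 4, 4, 2, 2, 1, 0, 0, 0, 0, 3, 2, 4, 2, 0, 2, 1, 3, 2],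
  [0, 3, 2, 0, 4, 0, 4, 0, 3, 3, 0, 0, 0, 4, 1, 0, 1, 0, 1, 0, 2, 3, 4, 0, 0, 0, 0, 0, 0, 0, 0, 0, 4, 1, 3, 0, 1, 2, 4, 0, 1, 1, 0, 0, 0, 3, 2, 0, 1, 0, 1, 0, 2, 3, 4],
  [2, 3, 0, 0, 3, 2, 0, 0, 1, 4, 0, 0, 4, 1, 0, 0, 3, 2, 0, 0, 2, 3, 0, 0, 0, 0, 0, 0, 0, 0, 0, 0, 1, 4, 0, 0, 4, 1, 0, 0, 2, 3, 0, 0, 3, 2, 0, 0, 3, 2, 0, 0, 2, 3, 0],
  [1, 0, 4, 3, 4, 4, 4, 0, 2, 3, 0, 4, 1, 0, 0, 0, 2, 1, 2, 2, 4, 2, 2, 0, 0, 0, 0, 0, 0, 0, 0, 0, 0, 4, 1, 4, 4, 1, 1, 0, 4, 1, 0, 3, 2, 0, 0, 0, 2, 1, 2, 2, 4, 2, 2],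
  [1, 2, 0, 2, 4, 0, 2, 0, 1, 1, 4, 1, 0, 0, 0, 0, 0, 3, 3, 3, 2, 0, 1, 0, 0, 0, 0, 0, 0, 0, 0, 0, 2, 1, 2, 1, 1, 0, 3, 0, 2, 2, 3, 2, 0, 0, 0, 0, 0, 3, 3, 3, 2, 0, 1],
  [0, 1, 4, 0, 4, 2, 2, 0, 3, 2, 1, 0, 0, 0, 0, 0, 1, 2, 4, 0, 2, 1, 1, 0, 0, 0, 0, 0, 0, 0, 0, 0, 4, 0, 4, 0, 1, 3, 3, 0, 1, 4, 2, 0, 0, 0, 0, 0, 1, 2, 4, 0, 2, 1, 1]]

/-- third check -/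
def check3 : Bool := (List.range 55).all fun i => (List.range 55).all fun j =>
  Nat.beq (dotN (ninv.getD i []) j (s2 7) % 5) (if Nat.beq i j then 1 else 0)

/-- length check -/
def check4 : Bool := (List.range 55).all fun i => Nat.beq (ninv.getD i []).length 55

set_option maxRecDepth 100000 in
theorem check3_true : check3 = true := by decide +kernel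

set_option maxRecDepth 100000 in
theorem check4_true : check4 = true := by decide +kernel

end Pool.Agent.Lib.MP_adc81a_nt
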